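import Mathlib

set_option autoImplicit false

namespace Pool.Agent.Results.MP_c389b3_nt.BoundaryPair

/-- The `(α,β)`-walk with `w 1 = a₁`, `w 2 = a₂`, `w (k+2) = α w (k+1) + β w k` for `k ≥ 1`
(the value at the unused index `0` is irrelevant). -/
def walk (α β a₁ a₂ : ℕ) : ℕ → ℕ
  | 0 => 0
  | 1 => a₁
  | 2 => a₂
  | (k + 3) => α * walk α β a₁ a₂ (k + 2) + β * walk α β a₁ a₂ (k + 1)

/-- The indices `k ≥ 1` at which some `(α,β)`-walk with positive starting values reaches `n`. -/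
def reach (p : ℕ × ℕ) (n : ℕ) : Set ℕ :=
  {k | 1 ≤ k ∧ ∃ a₁ a₂ : ℕ, 1 ≤ a₁ ∧ 1 ≤ a₂ ∧ walk p.1 p.2 a₁ a₂ k = n}

/-- `s^{α,β}(n)`: the largest index at which some `(α,β)`-walk with positive starting values
reaches `n`. -/
noncomputable def slow (p : ℕ × ℕ) (n : ℕ) : ℕ := sSup (reach p n)

/-- The larger root of `x² = α x + β`. -/
noncomputable def γ (p : ℕ × ℕ) : ℝ := ((p.1 : ℝ) + Real.sqrt ((p.1 : ℝ) ^ 2 + 4 * (p.2 : ℝ))) / 2

/-- The minimum `Γ_T` of the numbers `γ_{α,β}` over `T`. -/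
noncomputable def Γ (T : Set (ℕ × ℕ)) : ℝ := sInf (γ '' T)

/-- `S_T(n)`: the pairs of `T` whose `s^{α,β}(n)` is maximal in `T`. -/
def S (T : Set (ℕ × ℕ)) (n : ℕ) : Set (ℕ × ℕ) := {p | p ∈ T ∧ ∀ q ∈ T, slow q n ≤ slow p n}

/-- `R_T'`: the pairs of `T` with `γ_{α,β} < Γ_T²`. -/
def R' (T : Set (ℕ × ℕ)) : Set (ℕ × ℕ) := {p | p ∈ T ∧ γ p < Γ T ^ 2}

lemma walk_succ (α β a₁ a₂ : ℕ) (k : ℕ) (hk : 1 ≤ k) :
    walk α β a₁ a₂ (k + 1) = walk α β a₂ (α * a₂ + β * a₁) k := by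
  induction k using Nat.strong_induction_on with
  | _ k ih =>
    match k, hk with
    | 1, _ => rfl
    | 2, _ => rfl
    | (k + 3), _ =>
      have h1 := ih (k + 2) (by omega) (by omega)
      have h2 := ih (k + 1) (by omega) (by omega)
      show α * walk α β a₁ a₂ (k + 3) + β * walk α β a₁ a₂ (k + 2) = _
      rw [h1, h2]
      rfl

lemma walk_shift (α β : ℕ) (hα : 1 ≤ α) (m : ℕ) (hm : 1 ≤ m) :
    ∀ (j a₁ a₂ : ℕ), 1 ≤ a₁ → 1 ≤ a₂ →
      ∃ b₁ b₂ : ℕ, 1 ≤ b₁ ∧ 1 ≤ b₂ ∧ walk α β a₁ a₂ (m + j) = walk α β b₁ b₂ m := by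
  intro j
  induction j with
  | zero => intro a₁ a₂ h1 h2; exact ⟨a₁, a₂, h1, h2, rfl⟩
  | succ j ih =>
    intro a₁ a₂ h1 h2
    have h3 : 1 ≤ α * a₂ + β * a₁ := le_add_right (Nat.mul_le_mul hα h2)
    obtain ⟨b₁, b₂, hb1, hb2, hb⟩ := ih a₂ (α * a₂ + β * a₁) h2 h3
    refine ⟨b₁, b₂, hb1, hb2, ?_⟩
    rw [← hb, ← walk_succ α β a₁ a₂ (m + j) (by omega)]
    rfl

lemma walk_lower (α β a₁ a₂ : ℕ) (hα : 1 ≤ α) (hβ : 1 ≤ β) (h1 : 1 ≤ a₁) (h2 : 1 ≤ a₂) :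
    ∀ k : ℕ, k ≤ walk α β a₁ a₂ (k + 1) + 1 ∧ 1 ≤ walk α β a₁ a₂ (k + 1) := by
  intro k
  induction k using Nat.strong_induction_on with
  | _ k ih =>
    match k with
    | 0 => exact ⟨by omega, h1⟩
    | 1 => exact ⟨by omega, h2⟩
    | (k + 2) =>
      obtain ⟨i1, i2⟩ := ih (k + 1) (by omega)
      obtain ⟨j1, j2⟩ := ih k (by omega)
      have e : walk α β a₁ a₂ (k + 2 + 1)
          = α * walk α β a₁ a₂ (k + 1 + 1) + β * walk α β a₁ a₂ (k + 1) := rfl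
      rw [e]
      have m1 := Nat.mul_le_mul hα (le_refl (walk α β a₁ a₂ (k + 1 + 1)))
      have m2 := Nat.mul_le_mul hβ (le_refl (walk α β a₁ a₂ (k + 1)))
      omega

/-- For positive `α, β` the set of reaching indices is bounded, so `slow` is a genuine maximum
(the set is also nonempty for `n ≥ 1`, as it contains `1` and `2`). -/
lemma reach_bdd (p : ℕ × ℕ) (h1 : 1 ≤ p.1) (h2 : 1 ≤ p.2) (n : ℕ) : BddAbove (reach p n) := by
  refine ⟨n + 2, ?_⟩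
  rintro k ⟨hk, a₁, a₂, ha1, ha2, rfl⟩
  obtain ⟨j, rfl⟩ : ∃ j, k = j + 1 := ⟨k - 1, by omega⟩
  have := (walk_lower p.1 p.2 a₁ a₂ h1 h2 ha1 ha2 j).1
  omega

/-- Closed form of the `(2,3)`-walk. -/
lemma walk23 (a₁ a₂ : ℕ) : ∀ k : ℕ, (4 * walk 2 3 a₁ a₂ (k + 1) : ℤ)
    = ((a₁ : ℤ) + a₂) * 3 ^ k - ((a₂ : ℤ) - 3 * a₁) * (-1) ^ k := by
  intro k
  induction k using Nat.strong_induction_on with
  | _ k ih =>
    match k with
    | 0 => simp [walk]; ring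
    | 1 => simp [walk]; ring
    | (k + 2) =>
      have i1 := ih (k + 1) (by omega)
      have i2 := ih k (by omega)
      have e : walk 2 3 a₁ a₂ (k + 2 + 1)
          = 2 * walk 2 3 a₁ a₂ (k + 1 + 1) + 3 * walk 2 3 a₁ a₂ (k + 1) := rfl
      rw [e]
      push_cast
      linear_combination 2 * i1 + 3 * i2

/-- Closed form of the `(8,9)`-walk started at `(1,1)`. -/
lemma walk89 : ∀ k : ℕ, (5 * walk 8 9 1 1 (k + 1) : ℤ) = 9 ^ k + 4 * (-1) ^ k := by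
  intro k
  induction k using Nat.strong_induction_on with
  | _ k ih =>
    match k with
    | 0 => simp [walk]
    | 1 => simp [walk]
    | (k + 2) =>
      have i1 := ih (k + 1) (by omega)
      have i2 := ih k (by omega)
      have e : walk 8 9 1 1 (k + 2 + 1)
          = 8 * walk 8 9 1 1 (k + 1 + 1) + 9 * walk 8 9 1 1 (k + 1) := rfl
      rw [e]
      push_cast
      linear_combination 8 * i1 + 9 * i2

lemma x_form (i : ℕ) : ∃ m : ℕ, 3 ^ (4 * i + 2) = 180 * m + 9 := by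
  induction i with
  | zero => exact ⟨0, by norm_num⟩
  | succ i ih =>
    obtain ⟨m, hm⟩ := ih
    refine ⟨81 * m + 4, ?_⟩
    have : 3 ^ (4 * (i + 1) + 2) = 81 * 3 ^ (4 * i + 2) := by ring
    rw [this, hm]; ring

/-- The value `w_s(1,1)` of the `(8,9)`-walk, `s = 4i+2`, is not reached by a `(2,3)`-walk with
positive starting values at index `s + 1`. -/
lemma not_reach (i b₁ b₂ : ℕ) (h1 : 1 ≤ b₁) (h2 : 1 ≤ b₂) :
    walk 2 3 b₁ b₂ (4 * i + 2 + 1) ≠ walk 8 9 1 1 (4 * i + 2) := by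
  intro h
  obtain ⟨m, hm⟩ := x_form i
  have e1 := walk23 b₁ b₂ (4 * i + 2)
  have e2 := walk89 (4 * i + 1)
  have hs1 : ((-1 : ℤ)) ^ (4 * i + 2) = 1 := by
    rw [show 4 * i + 2 = 2 * (2 * i + 1) by ring, pow_mul]; simp
  have hs2 : ((-1 : ℤ)) ^ (4 * i + 1) = -1 := by
    rw [show 4 * i + 1 = 2 * (2 * i) + 1 by ring, pow_succ, pow_mul]; simp
  have hx : ((3 : ℤ)) ^ (4 * i + 2) = 180 * m + 9 := by exact_mod_cast hm
  have h9 : 9 * (9 : ℤ) ^ (4 * i + 1) = (3 ^ (4 * i + 2)) ^ 2 := by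
    rw [← pow_mul, show (9 : ℤ) = 3 ^ 2 by norm_num, ← pow_mul, ← pow_add]
    congr 1; ring
  rw [h] at e1
  rw [hs1, hx] at e1
  rw [hs2] at e2
  have e2' : (walk 8 9 1 1 (4 * i + 1 + 1) : ℤ) = walk 8 9 1 1 (4 * i + 2) := rfl
  rw [e2'] at e2
  rw [hx] at h9
  set n : ℤ := (walk 8 9 1 1 (4 * i + 2) : ℤ) with hn
  -- 45 n = x² - 36, 4 n = N (x - 1) + 4 b₁
  have e3 : 45 * n = (180 * (m : ℤ) + 9) ^ 2 - 36 := by linear_combination 9 * e2 + h9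
  have e4 : n = ((b₁ : ℤ) + b₂) * (45 * m + 2) + b₁ := by linarith
  have hb1 : (1 : ℤ) ≤ b₁ := by exact_mod_cast h1
  have hb2 : (1 : ℤ) ≤ b₂ := by exact_mod_cast h2
  have hm0 : (0 : ℤ) ≤ m := Int.natCast_nonneg m
  rw [e4] at e3
  -- put D = M - N with M = 16 m
  set D : ℤ := 16 * (m : ℤ) - ((b₁ : ℤ) + b₂) with hD
  have e5 : (b₁ : ℤ) = D * (45 * m + 2) + 40 * m + 1 := by
    have : 45 * (b₁ : ℤ) = 45 * (D * (45 * m + 2) + 40 * m + 1) := by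
      rw [hD]; linear_combination e3
    linarith
  have hDnn : 0 ≤ D := by
    by_contra hneg
    have hD1 : D ≤ -1 := by omega
    nlinarith
  have h6 : 40 * (m : ℤ) + 1 ≤ b₁ := by nlinarith
  have h7 : (b₁ : ℤ) + b₂ ≤ 16 * m := by omega
  linarith

lemma slow23_le (i : ℕ) : slow (2, 3) (walk 8 9 1 1 (4 * i + 2)) ≤ 4 * i + 2 := by
  unfold slow
  apply csSup_le'
  rintro k ⟨hk, a₁, a₂, ha1, ha2, h⟩
  by_contra hlt
  obtain ⟨j, rfl⟩ : ∃ j, k = (4 * i + 2 + 1) + j := ⟨k - (4 * i + 2 + 1), by omega⟩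
  obtain ⟨b₁, b₂, hb1, hb2, hb⟩ := walk_shift 2 3 (by norm_num) (4 * i + 2 + 1) (by omega) j a₁ a₂
    ha1 ha2
  exact not_reach i b₁ b₂ hb1 hb2 (hb ▸ h)

lemma le_slow89 (i : ℕ) : 4 * i + 2 ≤ slow (8, 9) (walk 8 9 1 1 (4 * i + 2)) := by
  unfold slow
  exact le_csSup (reach_bdd (8, 9) (by norm_num) (by norm_num) _)
    ⟨by omega, 1, 1, le_refl _, le_refl _, rfl⟩

lemma γ23 : γ (2, 3) = 3 := by
  unfold γ
  have : Real.sqrt (((2 : ℕ) : ℝ) ^ 2 + 4 * ((3 : ℕ) : ℝ)) = 4 := by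
    rw [show ((2 : ℕ) : ℝ) ^ 2 + 4 * ((3 : ℕ) : ℝ) = 4 ^ 2 by norm_num]
    exact Real.sqrt_sq (by norm_num)
  simp only
  rw [this]; norm_num

lemma γ89 : γ (8, 9) = 9 := by
  unfold γ
  have : Real.sqrt (((8 : ℕ) : ℝ) ^ 2 + 4 * ((9 : ℕ) : ℝ)) = 10 := by
    rw [show ((8 : ℕ) : ℝ) ^ 2 + 4 * ((9 : ℕ) : ℝ) = 10 ^ 2 by norm_num]
    exact Real.sqrt_sq (by norm_num)
  simp only
  rw [this]; norm_num

/-- **The claim of Q1 is false.** There are a nonempty set `T` of pairs of coprime positive integers and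
a pair `p ∈ T` that is not in `R_T'` (that is, `γ_p ≥ Γ_T²`) but lies in `S_T(n)` for infinitely many
`n ≥ 1`. (The proof takes `T = {(2,3), (8,9)}`, `p = (8,9)`.) -/
theorem result : ∃ T : Set (ℕ × ℕ), T.Nonempty ∧
    (∀ p ∈ T, 1 ≤ p.1 ∧ 1 ≤ p.2 ∧ Nat.Coprime p.1 p.2) ∧
    ∃ p ∈ T, p ∉ R' T ∧ {n : ℕ | 1 ≤ n ∧ p ∈ S T n}.Infinite := by
  refine ⟨{(2, 3), (8, 9)}, ⟨(2, 3), by simp⟩, ?_, (8, 9), by simp, ?_, ?_⟩
  · rintro p hp
    simp only [Set.mem_insert_iff, Set.mem_singleton_iff] at hp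
    rcases hp with rfl | rfl <;> norm_num
  · rintro ⟨-, h⟩
    have hΓ : Γ {((2 : ℕ), (3 : ℕ)), (8, 9)} = 3 := by
      unfold Γ
      rw [Set.image_pair, γ23, γ89, csInf_pair]
      norm_num
    rw [hΓ, γ89] at h
    norm_num at h
  · have hinj : Function.Injective (fun i : ℕ => walk 8 9 1 1 (4 * i + 2)) := by
      intro i j hij
      simp only at hij
      have hi := walk89 (4 * i + 1)
      have hj := walk89 (4 * j + 1)
      have hs2 : ∀ i : ℕ, ((-1 : ℤ)) ^ (4 * i + 1) = -1 := by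
        intro i
        rw [show 4 * i + 1 = 2 * (2 * i) + 1 by ring, pow_succ, pow_mul]; simp
      rw [hs2] at hi hj
      have e1 : (walk 8 9 1 1 (4 * i + 1 + 1) : ℤ) = walk 8 9 1 1 (4 * i + 2) := rfl
      have e2 : (walk 8 9 1 1 (4 * j + 1 + 1) : ℤ) = walk 8 9 1 1 (4 * j + 2) := rfl
      rw [e1, hij] at hi
      rw [e2] at hj
      have h9 : (9 : ℤ) ^ (4 * i + 1) = 9 ^ (4 * j + 1) := by linarith
      have := Int.pow_right_injective (a := 9) (by norm_num) h9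
      omega
    refine (Set.infinite_range_of_injective hinj).mono ?_
    rintro n ⟨i, rfl⟩
    refine ⟨?_, by simp, ?_⟩
    · have := (walk_lower 8 9 1 1 (by norm_num) (by norm_num) le_rfl le_rfl (4 * i + 1)).2
      exact this
    · intro q hq
      simp only [Set.mem_insert_iff, Set.mem_singleton_iff] at hq
      rcases hq with rfl | rfl
      · exact (slow23_le i).trans (le_slow89 i)
      · exact le_rfl

end Pool.Agent.Results.MP_c389b3_nt.BoundaryPair
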